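import Pool.Agent.Helper8.SE.Sheet

/-! Row PHM (helper46). -/

set_option autoImplicit false

open scoped ContDiff
open Set Filter Topology

namespace Pool.Agent.Helper8.SE

universe u

namespace S46

variable {X : Type u} [NormedAddCommGroup X] [NormedSpace ℝ X]

theorem pj_ne (g : ℕ → StrongDual ℝ X) (j : ℕ) (f : StrongDual ℝ X) :
    {r | ∃ x : X, ‖x‖ ≤ 1 ∧ (∀ i ≤ j, g i x = 0) ∧ r = f x}.Nonempty :=
  ⟨0, 0, by simp, by simp, by simp⟩

theorem pj_bd (g : ℕ → StrongDual ℝ X) (j : ℕ) (f : StrongDual ℝ X) :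
    BddAbove {r | ∃ x : X, ‖x‖ ≤ 1 ∧ (∀ i ≤ j, g i x = 0) ∧ r = f x} := by
  refine ⟨‖f‖, ?_⟩
  rintro r ⟨x, hx, -, rfl⟩
  refine (le_abs_self _).trans ?_
  have h := f.le_opNorm x
  rw [Real.norm_eq_abs] at h
  refine h.trans ?_
  exact mul_le_of_le_one_right (norm_nonneg _) hx

theorem le_pj (g : ℕ → StrongDual ℝ X) (j : ℕ) (f : StrongDual ℝ X) (x : X) (hx : ‖x‖ ≤ 1)
    (h0 : ∀ i ≤ j, g i x = 0) : f x ≤ pj g j f :=
  le_csSup (pj_bd g j f) ⟨x, hx, h0, rfl⟩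

theorem pj_nonneg (g : ℕ → StrongDual ℝ X) (j : ℕ) (f : StrongDual ℝ X) : 0 ≤ pj g j f := by
  have h := le_pj g j f 0 (by simp) (by simp)
  simpa using h

theorem pj_le (g : ℕ → StrongDual ℝ X) (j : ℕ) (f : StrongDual ℝ X) : pj g j f ≤ ‖f‖ := by
  refine csSup_le (pj_ne g j f) ?_
  rintro r ⟨x, hx, -, rfl⟩
  refine (le_abs_self _).trans ?_
  have h := f.le_opNorm x
  rw [Real.norm_eq_abs] at h
  exact h.trans (mul_le_of_le_one_right (norm_nonneg _) hx)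

/-- the terms -/
noncomputable def tj (g : ℕ → StrongDual ℝ X) (x : ℕ → X) (f : StrongDual ℝ X) (j : ℕ) : ℝ :=
  (1 / 2 : ℝ) ^ (j + 2) * ((f (x j)) ^ 2 + (pj g j f) ^ 2)

theorem tj_nonneg (g : ℕ → StrongDual ℝ X) (x : ℕ → X) (f : StrongDual ℝ X) (j : ℕ) :
    0 ≤ tj g x f j := by
  unfold tj
  positivity

theorem fx_le {f : StrongDual ℝ X} (hf : ‖f‖ ≤ 1) {x : X} (hx : ‖x‖ ≤ 1) : |f x| ≤ 1 := by
  have h := f.le_opNorm x
  rw [Real.norm_eq_abs] at h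
  exact h.trans (mul_le_one₀ hf (norm_nonneg _) hx)

theorem tj_le (g : ℕ → StrongDual ℝ X) (x : ℕ → X) (hx : ∀ j, ‖x j‖ ≤ 1) (f : StrongDual ℝ X)
    (hf : ‖f‖ ≤ 1) (j : ℕ) : tj g x f j ≤ (1 / 2) * (1 / 2 : ℝ) ^ j := by
  unfold tj
  have h1 : (f (x j)) ^ 2 ≤ 1 := by
    rw [← sq_abs]
    exact pow_le_one₀ (abs_nonneg _) (fx_le hf (hx j))
  have h2 : (pj g j f) ^ 2 ≤ 1 := pow_le_one₀ (pj_nonneg g j f) ((pj_le g j f).trans hf)
  have h3 : (0:ℝ) < (1 / 2 : ℝ) ^ j := by positivity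
  have h4 : (1 / 2 : ℝ) ^ (j + 2) = (1 / 4) * (1 / 2 : ℝ) ^ j := by
    rw [pow_add]
    ring
  rw [h4]
  nlinarith

theorem tj_sum (g : ℕ → StrongDual ℝ X) (x : ℕ → X) (hx : ∀ j, ‖x j‖ ≤ 1) (f : StrongDual ℝ X)
    (hf : ‖f‖ ≤ 1) : Summable (tj g x f) := by
  refine Summable.of_nonneg_of_le (tj_nonneg g x f) (tj_le g x hx f hf) ?_
  exact (summable_geometric_of_lt_one (by norm_num) (by norm_num)).mul_left _

theorem phi_eq (δ : ℝ) (g : ℕ → StrongDual ℝ X) (x : ℕ → X) (f : StrongDual ℝ X) :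
    phi δ g x f = δ * ∑' j, tj g x f j := rfl

/-- exact partial sums along a weak-star limit -/
theorem lsc (F : Ultrafilter ℕ) (g : ℕ → StrongDual ℝ X) (x : ℕ → X) (hx : ∀ j, ‖x j‖ ≤ 1)
    (u : ℕ → StrongDual ℝ X) (hu : ∀ n, ‖u n‖ ≤ 1) (f : StrongDual ℝ X) (hf : ‖f‖ ≤ 1)
    (ht : ∀ z, Tendsto (fun n => u n z) F (𝓝 (f z))) (B : ℕ → ℝ) (b : ℝ)
    (hB : Tendsto B F (𝓝 b)) (hle : ∀ n, ∑' j, tj g x (u n) j ≤ B n) (N : ℕ) :
    ∑ j ∈ Finset.range N, tj g x f j ≤ b := by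
  refine le_of_forall_pos_le_add fun ε hε => ?_
  set η : ℝ := min 1 (ε / 3) with hη
  have hη0 : 0 < η := lt_min one_pos (by positivity)
  have hη1 : η ≤ 1 := min_le_left _ _
  have hη2 : η ≤ ε / 3 := min_le_right _ _
  have hz : ∀ j, ∃ z : X, ‖z‖ ≤ 1 ∧ (∀ i ≤ j, g i z = 0) ∧ pj g j f - η < f z := by
    intro j
    obtain ⟨r, ⟨z, h1, h2, rfl⟩, h3⟩ := exists_lt_of_lt_csSup (pj_ne g j f)
      (show pj g j f - η < pj g j f by linarith)
    exact ⟨z, h1, h2, h3⟩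
  choose z hz1 hz2 hz3 using hz
  have hlim : Tendsto (fun n => ∑ j ∈ Finset.range N,
      (1 / 2 : ℝ) ^ (j + 2) * ((u n (x j)) ^ 2 + (max (u n (z j)) 0) ^ 2)) F
      (𝓝 (∑ j ∈ Finset.range N,
        (1 / 2 : ℝ) ^ (j + 2) * ((f (x j)) ^ 2 + (max (f (z j)) 0) ^ 2))) := by
    refine tendsto_finsetSum _ fun j _ => ?_
    exact (((ht (x j)).pow 2).add (((ht (z j)).max tendsto_const_nhds).pow 2)).const_mul _
  have hbd : ∀ n, ∑ j ∈ Finset.range N,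
      (1 / 2 : ℝ) ^ (j + 2) * ((u n (x j)) ^ 2 + (max (u n (z j)) 0) ^ 2) ≤ B n := by
    intro n
    refine le_trans ?_ (((tj_sum g x hx (u n) (hu n)).sum_le_tsum (Finset.range N)
      fun j _ => tj_nonneg g x (u n) j).trans (hle n))
    refine Finset.sum_le_sum fun j _ => ?_
    unfold tj
    refine mul_le_mul_of_nonneg_left ?_ (by positivity)
    have h1 : max (u n (z j)) 0 ≤ pj g j (u n) :=
      max_le (le_pj g j (u n) (z j) (hz1 j) (hz2 j)) (pj_nonneg g j (u n))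
    have h2 : (max (u n (z j)) 0) ^ 2 ≤ (pj g j (u n)) ^ 2 :=
      pow_le_pow_left₀ (le_max_right _ _) h1 2
    linarith
  have h5 := le_of_tendsto_of_tendsto' hlim hB hbd
  have h6 : ∀ j ∈ Finset.range N, tj g x f j ≤
      (1 / 2 : ℝ) ^ (j + 2) * ((f (x j)) ^ 2 + (max (f (z j)) 0) ^ 2) +
        (3 * η) * (1 / 2 * (1 / 2 : ℝ) ^ j) := by
    intro j _
    unfold tj
    have h1 : pj g j f ≤ max (f (z j)) 0 + η := by
      have := le_max_left (f (z j)) 0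
      linarith [hz3 j]
    have h2 : max (f (z j)) 0 ≤ 1 :=
      max_le ((le_abs_self _).trans (fx_le hf (hz1 j))) zero_le_one
    have h3 : 0 ≤ max (f (z j)) 0 := le_max_right _ _
    have h4 : (pj g j f) ^ 2 ≤ (max (f (z j)) 0 + η) ^ 2 :=
      pow_le_pow_left₀ (pj_nonneg g j f) h1 2
    have h7 : (pj g j f) ^ 2 ≤ (max (f (z j)) 0) ^ 2 + 3 * η := by nlinarith
    have h8 : (0:ℝ) < (1 / 2 : ℝ) ^ j := by positivity
    have h9 : (1 / 2 : ℝ) ^ (j + 2) = (1 / 4) * (1 / 2 : ℝ) ^ j := by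
      rw [pow_add]
      ring
    rw [h9]
    have h10 := mul_le_mul_of_nonneg_left h7 h8.le
    have h11 := mul_pos h8 hη0
    nlinarith
  have h7 := Finset.sum_le_sum h6
  rw [Finset.sum_add_distrib, ← Finset.mul_sum, ← Finset.mul_sum] at h7
  have h8 : ∑ j ∈ Finset.range N, (1 / 2 : ℝ) ^ j ≤ 2 := by
    have h9 := (summable_geometric_of_lt_one (r := (1 / 2 : ℝ)) (by norm_num)
      (by norm_num)).sum_le_tsum (Finset.range N) fun j _ => by positivity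
    rw [tsum_geometric_of_lt_one (by norm_num) (by norm_num)] at h9
    refine h9.trans (by norm_num)
  have h9 : 3 * η * (1 / 2 * ∑ j ∈ Finset.range N, (1 / 2 : ℝ) ^ j) ≤ ε := by
    have h10 : 1 / 2 * ∑ j ∈ Finset.range N, (1 / 2 : ℝ) ^ j ≤ 1 := by linarith
    have h11 := mul_le_mul_of_nonneg_left h10 (by linarith : (0:ℝ) ≤ 3 * η)
    linarith
  linarith

end S46

open S46 in
/-- row PHM -/
theorem stPHM (hU : ST_ULT.{u}) : ST_PHM.{u} := by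
  intro X _ _ δ hδ g x hx
  have hnn : ∀ f, 0 ≤ phi δ g x f := fun f => by
    rw [phi_eq]
    exact mul_nonneg hδ.le (tsum_nonneg (tj_nonneg g x f))
  have hle : ∀ f, ‖f‖ ≤ 1 → phi δ g x f ≤ δ := fun f hf => by
    rw [phi_eq]
    have h1 := (tj_sum g x hx f hf).tsum_le_tsum (tj_le g x hx f hf)
      ((summable_geometric_of_lt_one (by norm_num) (by norm_num)).mul_left _)
    rw [tsum_mul_left, tsum_geometric_of_lt_one (by norm_num) (by norm_num)] at h1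
    have h2 : ∑' j, tj g x f j ≤ 1 := h1.trans (by norm_num)
    exact mul_le_of_le_one_right hδ.le h2
  refine ⟨hnn, hle, fun y => ?_⟩
  set S : Set ℝ := {r | ∃ f : StrongDual ℝ X, ‖f‖ ≤ 1 ∧ r = f y - phi δ g x f} with hS
  have hSne : S.Nonempty := ⟨_, 0, by simp, rfl⟩
  have hSbd : BddAbove S := by
    refine ⟨‖y‖, ?_⟩
    rintro r ⟨f, hf, rfl⟩
    have h1 := f.le_opNorm y
    rw [Real.norm_eq_abs] at h1
    have h2 := le_abs_self (f y)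
    have h3 : ‖f‖ * ‖y‖ ≤ ‖y‖ := mul_le_of_le_one_left (norm_nonneg _) hf
    linarith [hnn f]
  obtain ⟨v, -, hv, hvS⟩ := exists_seq_tendsto_sSup hSne hSbd
  choose u hu1 hu2 using hvS
  obtain ⟨f₀, hf₀, ht⟩ := hU X u hu1 (hyperfilter ℕ)
  have hvF : Tendsto v (hyperfilter ℕ) (𝓝 (sSup S)) := hv.mono_left Nat.hyperfilter_le_atTop
  have hB : Tendsto (fun n => (u n y - v n) / δ) (hyperfilter ℕ)
      (𝓝 ((f₀ y - sSup S) / δ)) := ((ht y).sub hvF).div_const δ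
  have hmax : δ * ∑' j, tj g x f₀ j ≤ f₀ y - sSup S := by
    have h1 : ∑' j, tj g x f₀ j ≤ (f₀ y - sSup S) / δ := by
      refine Real.tsum_le_of_sum_range_le (tj_nonneg g x f₀) fun N => ?_
      refine lsc (hyperfilter ℕ) g x hx u hu1 f₀ hf₀ ht _ _ hB (fun n => ?_) N
      rw [le_div_iff₀ hδ, hu2 n, phi_eq]
      linarith
    rw [le_div_iff₀ hδ] at h1
    linarith
  refine ⟨f₀, hf₀, fun f hf => ?_⟩
  have h1 : f y - phi δ g x f ≤ sSup S := le_csSup hSbd ⟨f, hf, rfl⟩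
  rw [phi_eq δ g x f₀]
  linarith

end Pool.Agent.Helper8.SE
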